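import Mathlib

set_option autoImplicit false

namespace Pool.Agent.W850.AF.PCN

open Finset

lemma prod_ge {ι : Type*} (s : Finset ι) (x : ι → ℝ) (h0 : ∀ i ∈ s, 0 ≤ x i)
    (h1 : ∀ i ∈ s, x i ≤ 1) :
    1 - ∑ i ∈ s, x i ≤ ∏ i ∈ s, (1 - x i) ∧ ∏ i ∈ s, (1 - x i) ≤ 1 ∧ 0 ≤ ∏ i ∈ s, (1 - x i) := by
  classical
  induction s using Finset.induction_on with
  | empty => simp
  | insert a s ha ih =>
    rw [Finset.sum_insert ha, Finset.prod_insert ha]
    obtain ⟨i1, i2, i3⟩ := ih (fun i hi => h0 i (by simp [hi])) (fun i hi => h1 i (by simp [hi]))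
    have a0 := h0 a (by simp)
    have a1 := h1 a (by simp)
    refine ⟨?_, ?_, ?_⟩
    · nlinarith
    · nlinarith
    · exact mul_nonneg (by linarith) i3

/-- `φ(q) ≥ q - ∑_{p ∣ q} q/p`. -/
lemma totient_ge (q : ℕ) :
    (q : ℝ) - ∑ p ∈ q.primeFactors, (q : ℝ) / p ≤ (Nat.totient q : ℝ) := by
  have h := Nat.totient_eq_mul_prod_factors q
  have h' : (Nat.totient q : ℝ) = (q : ℝ) * ∏ p ∈ q.primeFactors, (1 - (p : ℝ)⁻¹) := by
    have := congrArg (fun x : ℚ => (x : ℝ)) h
    push_cast at this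
    exact this
  rw [h']
  have := (prod_ge q.primeFactors (fun p => (p : ℝ)⁻¹) (fun i _ => by positivity)
    (fun i hi => by
      have : 1 ≤ i := (Nat.prime_of_mem_primeFactors hi).one_lt.le
      exact inv_le_one_of_one_le₀ (by exact_mod_cast this))).1
  have hq : (0 : ℝ) ≤ q := by positivity
  calc (q : ℝ) - ∑ p ∈ q.primeFactors, (q : ℝ) / p
      = q * (1 - ∑ p ∈ q.primeFactors, (p : ℝ)⁻¹) := by
        rw [mul_sub, mul_one, Finset.mul_sum]; simp [div_eq_mul_inv]
    _ ≤ _ := mul_le_mul_of_nonneg_left this hq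

lemma card_chars (n : ℕ) [NeZero n] :
    Fintype.card (DirichletCharacter ℂ n) = Nat.totient n := by
  rw [← Nat.card_eq_fintype_card]
  exact DirichletCharacter.card_eq_totient_of_hasEnoughRootsOfUnity ℂ n

open Classical in
/-- number of primitive characters -/
lemma card_prim_ge (q : ℕ) (hq : 1 ≤ q) :
    (q : ℝ) - 2 * ∑ p ∈ q.primeFactors, (q : ℝ) / p ≤
      (((univ : Finset (DirichletCharacter ℂ q)).filter (fun χ => χ.IsPrimitive)).card : ℝ) := by
  have : NeZero q := ⟨by omega⟩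
  -- non-primitive characters
  have key : (((univ : Finset (DirichletCharacter ℂ q)).filter
      (fun χ => ¬ χ.IsPrimitive)).card : ℝ) ≤ ∑ p ∈ q.primeFactors, (q : ℝ) / p := by
    have hsub : ((univ : Finset (DirichletCharacter ℂ q)).filter (fun χ => ¬ χ.IsPrimitive)) ⊆
        q.primeFactors.biUnion (fun p =>
          (univ : Finset (DirichletCharacter ℂ q)).filter (fun χ => χ.FactorsThrough (q / p))) := by
      intro χ hχ
      rw [Finset.mem_filter] at hχ
      have hnp : χ.conductor ≠ q := hχ.2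
      have hd : χ.conductor ∣ q := χ.conductor_dvd_level
      obtain ⟨m, hm⟩ := hd
      have hm1 : m ≠ 1 := by
        rintro rfl
        exact hnp (by rw [mul_one] at hm; exact hm.symm)
      obtain ⟨p, hp, hpm⟩ := Nat.exists_prime_and_dvd hm1
      have hpq : p ∣ q := by rw [hm]; exact Dvd.dvd.mul_left hpm _
      rw [Finset.mem_biUnion]
      refine ⟨p, Nat.mem_primeFactors.2 ⟨hp, hpq, by omega⟩, ?_⟩
      rw [Finset.mem_filter]
      refine ⟨Finset.mem_univ _, ?_⟩
      have hc := χ.factorsThrough_conductor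
      refine DirichletCharacter.FactorsThrough.mono χ hc ?_ (Nat.div_dvd_of_dvd hpq)
      obtain ⟨r, hr⟩ := hpm
      have : q / p = χ.conductor * r := by
        apply Nat.div_eq_of_eq_mul_right hp.pos
        conv_lhs => rw [hm, hr]
        ring
      rw [this]
      exact Dvd.intro _ rfl
    have hcard := (Finset.card_le_card hsub).trans Finset.card_biUnion_le
    have hc2 : ∀ p ∈ q.primeFactors,
        (((univ : Finset (DirichletCharacter ℂ q)).filter
          (fun χ => χ.FactorsThrough (q / p))).card : ℝ) ≤ (q : ℝ) / p := by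
      intro p hp
      have hpp := Nat.prime_of_mem_primeFactors hp
      have hpq := Nat.dvd_of_mem_primeFactors hp
      have hpos : 0 < q / p := Nat.div_pos (Nat.le_of_dvd (by omega) hpq) hpp.pos
      have : NeZero (q / p) := ⟨by omega⟩
      have hdv : q / p ∣ q := Nat.div_dvd_of_dvd hpq
      have : ((univ : Finset (DirichletCharacter ℂ q)).filter
          (fun χ => χ.FactorsThrough (q / p))) ⊆
          (univ : Finset (DirichletCharacter ℂ (q / p))).image
            (fun ψ => DirichletCharacter.changeLevel hdv ψ) := by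
        intro χ hχ
        rw [Finset.mem_filter] at hχ
        rw [Finset.mem_image]
        exact ⟨hχ.2.χ₀, Finset.mem_univ _, hχ.2.eq_changeLevel.symm⟩
      have h1 := (Finset.card_le_card this).trans Finset.card_image_le
      rw [Finset.card_univ, card_chars] at h1
      have h2 : (Nat.totient (q / p)) ≤ q / p := Nat.totient_le _
      calc _ ≤ ((q / p : ℕ) : ℝ) := by exact_mod_cast h1.trans h2
        _ = (q : ℝ) / p := by
          rw [Nat.cast_div hpq (by exact_mod_cast hpp.ne_zero)]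
    calc _ ≤ ((∑ p ∈ q.primeFactors, ((univ : Finset (DirichletCharacter ℂ q)).filter
            (fun χ => χ.FactorsThrough (q / p))).card : ℕ) : ℝ) := by exact_mod_cast hcard
      _ = ∑ p ∈ q.primeFactors, (((univ : Finset (DirichletCharacter ℂ q)).filter
            (fun χ => χ.FactorsThrough (q / p))).card : ℝ) := by push_cast; rfl
      _ ≤ _ := Finset.sum_le_sum hc2
  have htot := Finset.card_filter_add_card_filter_not (s := (univ : Finset (DirichletCharacter ℂ q)))
    (fun χ => χ.IsPrimitive)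
  rw [Finset.card_univ, card_chars] at htot
  have htot' : ((((univ : Finset (DirichletCharacter ℂ q)).filter
      (fun χ => χ.IsPrimitive)).card : ℝ)) + (((univ : Finset (DirichletCharacter ℂ q)).filter
      (fun χ => ¬ χ.IsPrimitive)).card : ℝ) = (Nat.totient q : ℝ) := by exact_mod_cast htot
  have := totient_ge q
  linarith

lemma cnt_ap (K p : ℕ) (hp : p.Prime) :
    ((Icc 1 K).filter (fun k => p ∣ 30 * k + 1)).card ≤ K / p + 1 := by
  have h := Finset.card_le_card_of_injOn (s := (Icc 1 K).filter (fun k => p ∣ 30 * k + 1))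
    (t := range (K / p + 1)) (fun k => k / p) ?_ ?_
  · simpa using h
  · intro k hk
    rw [Finset.mem_coe, Finset.mem_filter, Finset.mem_Icc] at hk
    rw [Finset.mem_coe, Finset.mem_range]
    exact Nat.lt_succ_of_le (Nat.div_le_div_right hk.1.2)
  · intro k hk l hl hkl
    rw [Finset.mem_coe, Finset.mem_filter, Finset.mem_Icc] at hk hl
    simp only at hkl
    have hnp : ¬ p ∣ 30 := by
      intro h30
      have : p ∣ 1 := (Nat.dvd_add_right (Dvd.dvd.mul_right h30 k)).1 hk.2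
      exact hp.one_lt.ne' (Nat.dvd_one.1 this)
    have hcop : Nat.Coprime p 30 := (Nat.Prime.coprime_iff_not_dvd hp).2 hnp
    have e1 : 30 * k + 1 ≡ 30 * l + 1 [MOD p] :=
      ((Nat.modEq_zero_iff_dvd).2 hk.2).trans ((Nat.modEq_zero_iff_dvd).2 hl.2).symm
    have e2 : 30 * k ≡ 30 * l [MOD p] := Nat.ModEq.add_right_cancel' 1 e1
    have e3 : k ≡ l [MOD p] := Nat.ModEq.cancel_left_of_coprime hcop e2
    have e4 : k % p = l % p := e3
    rw [← Nat.div_add_mod k p, ← Nat.div_add_mod l p, hkl, e4]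

lemma seven_le (k p : ℕ) (hp : p.Prime) (h : p ∣ 30 * k + 1) : 7 ≤ p := by
  by_contra hlt
  have h30 : p ∣ 30 := by
    have h2 := hp.two_le
    have : p ≤ 6 := by omega
    interval_cases p
    · decide
    · decide
    · exact absurd hp (by decide)
    · decide
    · exact absurd hp (by decide)
  have : p ∣ 1 := (Nat.dvd_add_right (Dvd.dvd.mul_right h30 k)).1 h
  exact hp.one_lt.ne' (Nat.dvd_one.1 this)

lemma sum_sq (N : ℕ) : ∑ p ∈ Icc 7 N, (1 : ℝ) / (p : ℝ) ^ 2 ≤ 1 / 6 := by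
  by_cases hN : 7 ≤ N
  · have : ∀ n : ℕ, 6 ≤ n → ∑ p ∈ Icc 7 n, (1 : ℝ) / (p : ℝ) ^ 2 ≤ 1 / 6 - 1 / n := by
      intro n hn
      induction n, hn using Nat.le_induction with
      | base => norm_num
      | succ n hn ih =>
        rw [Finset.sum_Icc_succ_top (by omega)]
        have hn' : (0 : ℝ) < n := by exact_mod_cast (by omega : 0 < n)
        have : (1 : ℝ) / ((n + 1 : ℕ) : ℝ) ^ 2 ≤ 1 / n - 1 / ((n + 1 : ℕ) : ℝ) := by
          push_cast
          rw [div_sub_div _ _ hn'.ne' (by positivity), div_le_div_iff₀ (by positivity) (by positivity)]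
          nlinarith
        linarith
    have h := this N (by omega)
    have : (0 : ℝ) ≤ 1 / N := by positivity
    linarith
  · rw [Finset.Icc_eq_empty (by omega)]; norm_num

lemma sum_inv (N : ℕ) (hN : 1 ≤ N) : ∑ p ∈ Icc 7 N, (1 : ℝ) / (p : ℝ) ≤ 2 * Real.sqrt N := by
  have h := harmonic_le_one_add_log N
  simp_rw [harmonic_eq_sum_Icc, Rat.cast_sum, Rat.cast_inv, Rat.cast_natCast] at h
  have h1 : ∑ p ∈ Icc 7 N, (1 : ℝ) / (p : ℝ) ≤ ∑ p ∈ Icc 1 N, (p : ℝ)⁻¹ := by
    simp_rw [one_div]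
    apply Finset.sum_le_sum_of_subset_of_nonneg
    · exact Finset.Icc_subset_Icc (by norm_num) le_rfl
    · intro i _ _; positivity
  have hNpos : (0 : ℝ) < N := by exact_mod_cast hN
  have h2 : Real.log N = 2 * Real.log (Real.sqrt N) := by
    rw [Real.log_sqrt hNpos.le]; ring
  have h3 : Real.log (Real.sqrt N) ≤ Real.sqrt N - 1 :=
    Real.log_le_sub_one_of_pos (Real.sqrt_pos.2 hNpos)
  linarith

lemma dsum (K : ℕ) (hK : 1 ≤ K) :
    ∑ k ∈ Icc 1 K, ∑ p ∈ (30 * k + 1).primeFactors, ((30 * k + 1 : ℕ) : ℝ) / p ≤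
      ((30 * K + 1 : ℕ) : ℝ) * K / 6 + ((30 * K + 1 : ℕ) : ℝ) * (2 * Real.sqrt (30 * K + 1 : ℕ)) := by
  classical
  set N : ℕ := 30 * K + 1 with hN
  have hN0 : (0 : ℝ) ≤ N := by positivity
  have h1 : ∀ k ∈ Icc 1 K, ∑ p ∈ (30 * k + 1).primeFactors, ((30 * k + 1 : ℕ) : ℝ) / p ≤
      ∑ p ∈ Icc 7 N, (if p.Prime ∧ p ∣ 30 * k + 1 then (N : ℝ) / p else 0) := by
    intro k hk
    rw [Finset.mem_Icc] at hk
    rw [← Finset.sum_filter]
    have hsub : (30 * k + 1).primeFactors ⊆
        (Icc 7 N).filter (fun p => p.Prime ∧ p ∣ 30 * k + 1) := by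
      intro p hp
      have hpp := Nat.prime_of_mem_primeFactors hp
      have hpd := Nat.dvd_of_mem_primeFactors hp
      rw [Finset.mem_filter, Finset.mem_Icc]
      refine ⟨⟨seven_le k p hpp hpd, ?_⟩, hpp, hpd⟩
      have := Nat.le_of_dvd (by omega) hpd
      omega
    calc _ ≤ ∑ p ∈ (30 * k + 1).primeFactors, (N : ℝ) / p := by
          apply Finset.sum_le_sum
          intro p _
          apply div_le_div_of_nonneg_right _ (by positivity)
          exact_mod_cast (by omega : 30 * k + 1 ≤ N)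
      _ ≤ _ := Finset.sum_le_sum_of_subset_of_nonneg hsub (fun i _ _ => by positivity)
  calc _ ≤ ∑ k ∈ Icc 1 K, ∑ p ∈ Icc 7 N, (if p.Prime ∧ p ∣ 30 * k + 1 then (N : ℝ) / p else 0) :=
        Finset.sum_le_sum h1
    _ = ∑ p ∈ Icc 7 N, ∑ k ∈ Icc 1 K, (if p.Prime ∧ p ∣ 30 * k + 1 then (N : ℝ) / p else 0) :=
        Finset.sum_comm
    _ ≤ ∑ p ∈ Icc 7 N, ((N : ℝ) * K * (1 / (p : ℝ) ^ 2) + N * (1 / (p : ℝ))) := by
        apply Finset.sum_le_sum
        intro p hp7
        rw [Finset.mem_Icc] at hp7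
        have hp0 : (0 : ℝ) < p := by exact_mod_cast (by omega : 0 < p)
        by_cases hp : p.Prime
        · have : ∑ k ∈ Icc 1 K, (if p.Prime ∧ p ∣ 30 * k + 1 then (N : ℝ) / p else 0) =
              (((Icc 1 K).filter (fun k => p ∣ 30 * k + 1)).card : ℝ) * ((N : ℝ) / p) := by
            rw [← Finset.sum_filter, Finset.sum_const, nsmul_eq_mul]
            congr 3
            ext k
            simp [hp]
          rw [this]
          have hc : (((Icc 1 K).filter (fun k => p ∣ 30 * k + 1)).card : ℝ) ≤ (K : ℝ) / p + 1 := by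
            have h := cnt_ap K p hp
            calc _ ≤ ((K / p + 1 : ℕ) : ℝ) := by exact_mod_cast h
              _ = ((K / p : ℕ) : ℝ) + 1 := by push_cast; rfl
              _ ≤ _ := by linarith [@Nat.cast_div_le ℝ _ _ _ K p]
          calc _ ≤ ((K : ℝ) / p + 1) * ((N : ℝ) / p) :=
                mul_le_mul_of_nonneg_right hc (by positivity)
            _ = _ := by field_simp
        · have : ∑ k ∈ Icc 1 K, (if p.Prime ∧ p ∣ 30 * k + 1 then (N : ℝ) / p else 0) = 0 := by
            apply Finset.sum_eq_zero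
            intro k _
            simp [hp]
          rw [this]
          positivity
    _ = (N : ℝ) * K * (∑ p ∈ Icc 7 N, (1 / (p : ℝ) ^ 2)) + N * (∑ p ∈ Icc 7 N, (1 / (p : ℝ))) := by
        rw [Finset.sum_add_distrib, ← Finset.mul_sum, ← Finset.mul_sum]
    _ ≤ (N : ℝ) * K * (1 / 6) + N * (2 * Real.sqrt N) := by
        apply add_le_add
        · exact mul_le_mul_of_nonneg_left (sum_sq N) (by positivity)
        · exact mul_le_mul_of_nonneg_left (sum_inv N (by omega)) hN0
    _ = _ := by ring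

lemma sumk (K : ℕ) : ∑ k ∈ Icc 1 K, ((30 * k + 1 : ℕ) : ℝ) = 15 * (K : ℝ) ^ 2 + 16 * K := by
  induction K with
  | zero => simp
  | succ n ih =>
    rw [Finset.sum_Icc_succ_top (by omega), ih]
    push_cast
    ring

open Classical in
lemma main_ge (K : ℕ) (hK : 1 ≤ K) :
    15 * (K : ℝ) ^ 2 + 16 * K - 2 * (((30 * K + 1 : ℕ) : ℝ) * K / 6 +
      ((30 * K + 1 : ℕ) : ℝ) * (2 * Real.sqrt (30 * K + 1 : ℕ))) ≤
    ∑ k ∈ Icc 1 K, (((univ : Finset (DirichletCharacter ℂ (30 * k + 1))).filter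
      (fun χ => χ.IsPrimitive)).card : ℝ) := by
  have h := dsum K hK
  rw [← sumk K]
  calc _ ≤ ∑ k ∈ Icc 1 K, ((30 * k + 1 : ℕ) : ℝ) -
        2 * ∑ k ∈ Icc 1 K, ∑ p ∈ (30 * k + 1).primeFactors, ((30 * k + 1 : ℕ) : ℝ) / p := by
        linarith
    _ = ∑ k ∈ Icc 1 K, (((30 * k + 1 : ℕ) : ℝ) -
        2 * ∑ p ∈ (30 * k + 1).primeFactors, ((30 * k + 1 : ℕ) : ℝ) / p) := by
        rw [Finset.sum_sub_distrib, Finset.mul_sum]
    _ ≤ _ := Finset.sum_le_sum (fun k _ => card_prim_ge (30 * k + 1) (by omega))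

lemma arith (K : ℝ) (hK : 1000000 ≤ K) :
    4 * K ^ 2 ≤ 15 * K ^ 2 + 16 * K - 2 * ((30 * K + 1) * K / 6 +
      (30 * K + 1) * (2 * Real.sqrt (30 * K + 1))) := by
  have h0 : 0 ≤ K := by linarith
  have h1 : 30 * K + 1 ≤ 31 * K := by linarith
  have hs : Real.sqrt (30 * K + 1) ≤ K / 140 := by
    rw [Real.sqrt_le_left (by positivity)]
    nlinarith
  have hs0 := Real.sqrt_nonneg (30 * K + 1)
  have h2 : (30 * K + 1) * (2 * Real.sqrt (30 * K + 1)) ≤ 31 * K * (2 * (K / 140)) := by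
    apply mul_le_mul h1 (by linarith) (by positivity) (by positivity)
  nlinarith

open Classical in
/-- abstract form -/
theorem main_abs (F : ℕ → ℝ)
    (hF : ∀ q, F q = (((univ : Finset (DirichletCharacter ℂ q)).filter
      (fun χ => χ.IsPrimitive)).card : ℝ)) :
    ∀ Q : ℕ, 3 ≤ Q → (1 / 10 ^ 16 : ℝ) * (Q : ℝ) ^ 2 ≤ ∑ q ∈ Icc 2 Q, F q := by
  intro Q hQ
  have hF0 : ∀ q, 0 ≤ F q := fun q => by rw [hF]; positivity
  by_cases hbig : 40000000 ≤ Q
  · set K : ℕ := (Q - 1) / 30 with hK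
    have hK1 : 1000000 ≤ K := by omega
    have hK2 : 30 * K + 1 ≤ Q := by omega
    have hK3 : Q ≤ 60 * K := by omega
    have hsum : ∑ k ∈ Icc 1 K, F (30 * k + 1) ≤ ∑ q ∈ Icc 2 Q, F q := by
      have hinj : Set.InjOn (fun k : ℕ => 30 * k + 1) (Icc 1 K : Finset ℕ) := by
        intro a _ b _ hab
        simp only at hab
        omega
      rw [← Finset.sum_image (f := F) (g := fun k : ℕ => 30 * k + 1) hinj]
      apply Finset.sum_le_sum_of_subset_of_nonneg
      · intro q hq
        rw [Finset.mem_image] at hq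
        obtain ⟨k, hk, rfl⟩ := hq
        rw [Finset.mem_Icc] at hk ⊢
        omega
      · intro i _ _; exact hF0 i
    have hm := main_ge K (by omega)
    have ha := arith (K : ℝ) (by exact_mod_cast hK1)
    have hcast : ((30 * K + 1 : ℕ) : ℝ) = 30 * (K : ℝ) + 1 := by push_cast; ring
    rw [hcast] at hm
    have hall : 4 * (K : ℝ) ^ 2 ≤ ∑ q ∈ Icc 2 Q, F q := by
      calc _ ≤ _ := ha
        _ ≤ _ := hm
        _ = ∑ k ∈ Icc 1 K, F (30 * k + 1) := by
            apply Finset.sum_congr rfl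
            intro k _
            rw [hF]
        _ ≤ _ := hsum
    have hQK : (Q : ℝ) ≤ 60 * K := by exact_mod_cast hK3
    have hQ0 : (0 : ℝ) ≤ Q := by positivity
    have : (Q : ℝ) ^ 2 ≤ (60 * K) ^ 2 := pow_le_pow_left₀ hQ0 hQK 2
    nlinarith [sq_nonneg (K : ℝ)]
  · have h3 : F 3 ≤ ∑ q ∈ Icc 2 Q, F q :=
      Finset.single_le_sum (f := F) (fun i _ => hF0 i) (Finset.mem_Icc.2 ⟨by norm_num, hQ⟩)
    have h4 : (1 : ℝ) ≤ F 3 := by
      have h := card_prim_ge 3 (by norm_num)
      rw [← hF 3] at h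
      have hpf : (3 : ℕ).primeFactors = {3} := Nat.Prime.primeFactors Nat.prime_three
      rw [hpf] at h
      norm_num at h
      linarith
    have hQ' : (Q : ℝ) ≤ 40000000 := by exact_mod_cast (by omega : Q ≤ 40000000)
    have hQ0 : (0 : ℝ) ≤ Q := by positivity
    have : (Q : ℝ) ^ 2 ≤ 40000000 ^ 2 := pow_le_pow_left₀ hQ0 hQ' 2
    norm_num at this ⊢
    linarith

end Pool.Agent.W850.AF.PCN
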