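import Mathlib
import Pool.Agent.W169.AF.Stm
import Pool.Agent.W850.AF.PCN0

set_option autoImplicit false

namespace Pool.Agent.W850.AF.PCN

open Finset
open Pool.Agent.W169.AF

/-- part PCN: the number of primitive characters of conductor at most `Q` is at least `c Q^2` -/
theorem pcn : S_PCN := by
  classical
  refine ⟨1 / 10 ^ 16, by positivity, ?_⟩
  intro Q hQ
  have h := main_abs (fun q => (((univ : Finset (DirichletCharacter ℂ q)).filter
      (fun χ => χ.IsPrimitive)).card : ℝ)) (fun q => by congr) Q hQ
  refine h.trans (le_of_eq ?_)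
  unfold cnt FS
  apply Finset.sum_congr rfl
  intro q _
  rw [Finset.sum_congr rfl (g := fun _ => (1 : ℝ)) (fun χ _ => by simp)]
  rw [Finset.sum_const, nsmul_eq_mul, mul_one]
  unfold PC
  congr

end Pool.Agent.W850.AF.PCN
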